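import Pool.Agent.H13.BD.Fin
import Pool.Agent.H13.BD.Fib

/-!
# Permutations of bounded displacement and the Farrell-Jones conjecture for A-theory

Let `T` be a permutation of a set `Y`, `ι : X → Y` a map with fibres of at most `K` elements and `H` a group of
permutations of `X` of bounded displacement along `T`: every `g` in `H` has a bound `N` such that for all `x` there is
an integer `n` with `|n| ≤ N` and `ι (g x) = T ^ n (ι x)`. Then `H` belongs to every class `C` of groups which contains
the finite groups and the infinite cyclic group, is closed under isomorphism, subgroups, finite direct products, finite
free products, overgroups of finite index and directed colimits, and has the extension property. The class of the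
groups satisfying the Farrell-Jones conjecture for A-theory with coefficients and finite wreath products is such a
class.

In particular this applies to the wobbling group of the integers, and to the topological full group of every
homeomorphism `T` of a compact space (its elements are given by continuous, hence bounded, functions `n`).

Proof: reduction to the lines `Ω × ℤ` with the shift `T`. The blocks between the boundaries `y` and `T y` have slots
`0, 1, 2, …` for tokens. Let `T_A` move the token of the first slot over the boundaries with colour in `A`, and consider
the group generated by the `T_A` and the block permutations. Its relations are compared with those in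
`RAAG ⋊ Perm (Y × ℕ)`, where the label of `T_A` records which token crosses which boundary: for every system the
universal group given by the commutation relations of the `T_A` and the block permutations embeds in this group (a
pinch in a word of the right-angled Artin group can be removed by these relations), so that its kernel depends only on
the set of the pairs of colours of neighbouring boundaries. Finite systems have all recurrent pairs, and the kernel of
the comparison is locally finite. For finer and finer colourings this gives the group of the lines as a directed
colimit of extensions of groups `RAAG ⋊ (locally finite)` by locally finite groups.
-/

set_option autoImplicit false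

namespace Pool.Agent.Results.MP_2a547c_gt.BoundedDisplacement

open Pool.Agent.H98.FJ

theorem result (C : (G : Type) → [Group G] → Prop) (hC : Inherits C) (hE : Extension C)
    (X Y : Type) (T : Equiv.Perm Y) (ι : X → Y) (K : ℕ) (hι : ∀ y, {x | ι x = y}.encard ≤ K)
    (H : Subgroup (Equiv.Perm X))
    (hH : ∀ g ∈ H, ∃ N : ℕ, ∀ x, ∃ n : ℤ, |n| ≤ N ∧ ι (g x) = (T ^ n) (ι x)) : C H := by
  refine Pool.Agent.H13.BD.fib_mem hC (Pool.Agent.H13.BD.bd_mem hC hE) T ι K ?_ H hH
  intro y
  have h1 := hι y
  have h2 : {x | ι x = y}.Finite := Set.finite_of_encard_le_coe h1
  refine ⟨h2, ?_⟩
  rw [h2.encard_eq_coe_toFinset_card] at h1
  rw [Set.ncard_eq_toFinset_card _ h2]
  exact_mod_cast h1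

end Pool.Agent.Results.MP_2a547c_gt.BoundedDisplacement
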